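import Pool.Agent.K1H76.HB.Stm
import Pool.Agent.H234R3.Hopf

set_option autoImplicit false

/-!
# Piece SMP of the project HB: the strong maximum principle
-/

namespace Pool.Agent.K1H16.HB

open Pool.Agent.K1H76.HB Pool.Agent.H234R3 Filter Topology Set Module

/-- the second derivative in a direction -/
theorem dd_eq {u : ℂ → ℝ} {z : ℂ} (hu : ContDiffAt ℝ 2 u z) (a : ℂ) :
    dd u z a = fderiv ℝ (fun w => fderiv ℝ u w a) z a := by
  unfold dd
  have hc : Tendsto (fun t : ℝ => z + t • a) (𝓝 0) (𝓝 z) := by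
    have : Continuous (fun t : ℝ => z + t • a) := by fun_prop
    have h := this.tendsto 0
    simpa using h
  have hl : ∀ t : ℝ, HasDerivAt (fun t : ℝ => z + t • a) a t := by
    intro t
    have := (((hasDerivAt_id t).smul_const a).const_add z)
    simpa using this
  have h1 : ∀ᶠ w in 𝓝 z, DifferentiableAt ℝ u w := by
    filter_upwards [hu.eventually (by simp)] with w hw
    exact hw.differentiableAt (by simp)
  have h2 : (deriv fun t : ℝ => u (z + t • a)) =ᶠ[𝓝 0] fun t => fderiv ℝ u (z + t • a) a := by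
    filter_upwards [hc.eventually h1] with t ht
    exact (ht.hasFDerivAt.comp_hasDerivAt t (hl t)).deriv
  rw [h2.deriv_eq]
  have h3 : DifferentiableAt ℝ (fun w => fderiv ℝ u w a) z := by
    have h4 : ContDiffAt ℝ 1 (fderiv ℝ u) z := hu.fderiv_right (by norm_num)
    exact (h4.differentiableAt (by simp)).clm_apply (differentiableAt_const a)
  have h5 : HasFDerivAt (fun w => fderiv ℝ u w a) (fderiv ℝ (fun w => fderiv ℝ u w a) z)
      (z + (0 : ℝ) • a) := by
    rw [zero_smul, add_zero]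
    exact h3.hasFDerivAt
  exact (h5.comp_hasDerivAt 0 (hl 0)).deriv

/-- the flat metric -/
noncomputable def GG : ℂ → ℂ →L[ℝ] ℂ →L[ℝ] ℝ := fun _ => innerSL ℝ

theorem GG_apply (z a b : ℂ) : GG z a b = (a.re * b.re + a.im * b.im) := by
  have h : GG z a b = inner ℝ a b := rfl
  rw [h, Complex.inner]
  simp
  ring

theorem sub_of_lap {u : ℂ → ℝ} {z : ℂ} (hu : ContDiffAt ℝ 2 u z) (h : 0 ≤ lap u z) :
    SubAt (fun z a b => GG z a b) u z := by
  have hfin : finrank ℝ ℂ = 2 := Complex.finrank_real_complex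
  set e0 : Fin 2 ≃ Fin (finrank ℝ ℂ) := finCongr hfin.symm with he0
  refine ⟨fun _ _ => 0, Complex.basisOneI.reindex e0, ?_, ?_, ?_⟩
  · intro a b c
    simp [koszul, der, GG]
  · intro i j
    rw [Basis.reindex_apply, Basis.reindex_apply]
    have key : ∀ i j : Fin 2, GG z (Complex.basisOneI i) (Complex.basisOneI j) =
        if i = j then 1 else 0 := by
      intro i j
      fin_cases i <;> fin_cases j <;> simp [GG_apply]
    refine (key (e0.symm i) (e0.symm j)).trans ?_
    simp
  · have h1 : ∑ i, (dd u z ((Complex.basisOneI.reindex e0) i) -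
        der u z ((fun _ _ => (0 : ℂ)) ((Complex.basisOneI.reindex e0) i)
          ((Complex.basisOneI.reindex e0) i))) =
        ∑ i : Fin 2, dd u z (Complex.basisOneI i) := by
      symm
      refine Fintype.sum_equiv e0 _ _ (fun i => ?_)
      rw [Basis.reindex_apply, Equiv.symm_apply_apply]
      simp [der]
    rw [h1, Fin.sum_univ_two]
    simp only [Complex.coe_basisOneI, Matrix.cons_val_zero, Matrix.cons_val_one]
    rw [dd_eq hu, dd_eq hu]
    exact h

theorem t_SMP : S_SMP := by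
  intro U u c m hU hcon hu hcm hle hex hlap
  have hat : ∀ z ∈ U, ContDiffAt ℝ 2 u z := fun z hz => hu.contDiffAt (hU.mem_nhds hz)
  set V : Set ℂ := {z | z ∈ U ∧ u z = m} with hV
  set W : Set ℂ := {z | z ∈ U ∧ u z < m} with hW
  have hVo : IsOpen V := by
    rw [isOpen_iff_mem_nhds]
    rintro z ⟨hz, hzm⟩
    have h1 : ∀ᶠ w in 𝓝 z, w ∈ U := hU.mem_nhds hz
    have h2 : ∀ᶠ w in 𝓝 z, c < u w :=
      (hat z hz).continuousAt.eventually (lt_mem_nhds (by rw [hzm]; exact hcm))
    have h3 : ∀ᶠ w in 𝓝 z, u w = u z := by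
      refine local_smp (G := GG) contDiffAt_const ?_ (hat z hz) ?_ ?_
      · intro v hv
        rw [GG_apply, ← Complex.normSq_apply]
        exact Complex.normSq_pos.2 hv
      · filter_upwards [h1, h2] with w hw1 hw2
        exact sub_of_lap (hat w hw1) (hlap w hw1 hw2)
      · filter_upwards [h1] with w hw
        rw [hzm]
        exact hle w hw
    filter_upwards [h1, h3] with w hw1 hw3
    exact ⟨hw1, by rw [hw3, hzm]⟩
  have hWo : IsOpen W := by
    rw [isOpen_iff_mem_nhds]
    rintro z ⟨hz, hzm⟩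
    have h1 : ∀ᶠ w in 𝓝 z, w ∈ U := hU.mem_nhds hz
    have h2 : ∀ᶠ w in 𝓝 z, u w < m := (hat z hz).continuousAt.eventually (gt_mem_nhds hzm)
    filter_upwards [h1, h2] with w hw1 hw2
    exact ⟨hw1, hw2⟩
  have hdis : Disjoint V W := by
    rw [Set.disjoint_left]
    rintro z ⟨-, h1⟩ ⟨-, h2⟩
    linarith
  have hsub : U ⊆ V ∪ W := by
    intro z hz
    rcases (hle z hz).lt_or_eq with h | h
    · exact Or.inr ⟨hz, h⟩
    · exact Or.inl ⟨hz, h⟩
  obtain ⟨z0, hz0, hz0m⟩ := hex
  have := hcon.subset_left_of_subset_union hVo hWo hdis hsub ⟨z0, hz0, hz0, hz0m⟩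
  intro z hz
  exact (this hz).2

end Pool.Agent.K1H16.HB
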